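import Pool.Agent.Helper19.NF.Defs

/-!
# Open paths: the start and the last time
-/

namespace Pool.Agent.Helper1.NF

open Pool.Agent.Helper6.IP (cnt tm tm_le tm_eq tm_lt tm_eq_nat tm_eq_top)
open Pool.Agent.Helper19.NF

/-- The first time after one more step. -/
theorem tm_shift {W : Type} (o : ℕ → W) (τ : ℕ) {w : W} (h : o τ ≠ w) :
    tm (fun j => o (j + (τ + 1))) w + 1 = tm (fun j => o (j + τ)) w := by
  classical
  by_cases hex : ∃ j, o (j + (τ + 1)) = w
  · have h1 := Nat.find_spec hex
    have h2 : tm (fun j => o (j + (τ + 1))) w = (Nat.find hex : ℕ) :=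
      tm_eq h1 fun j hj => Nat.find_min hex hj
    have h3 : tm (fun j => o (j + τ)) w = ((Nat.find hex + 1 : ℕ) : ℕ∞) := by
      refine tm_eq ?_ fun j hj => ?_
      · rw [show Nat.find hex + 1 + τ = Nat.find hex + (τ + 1) by omega]
        exact h1
      · rcases j with _ | j
        · rw [Nat.zero_add]
          exact h
        · have h4 := Nat.find_min hex (m := j) (by omega)
          change o (j + 1 + τ) ≠ w
          rw [show j + 1 + τ = j + (τ + 1) by omega]
          exact h4
    rw [h2, h3]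
    push_cast
    rfl
  · have h2 : tm (fun j => o (j + (τ + 1))) w = ⊤ := tm_eq_top fun j hj => hex ⟨j, hj⟩
    have h3 : tm (fun j => o (j + τ)) w = ⊤ := by
      refine tm_eq_top fun j hj => ?_
      rcases j with _ | j
      · change o (0 + τ) = w at hj
        rw [Nat.zero_add] at hj
        exact h hj
      · refine hex ⟨j, ?_⟩
        rw [show j + (τ + 1) = j + 1 + τ by omega]
        exact hj
    rw [h2, h3]
    rfl

variable {n m : ℕ} [NeZero m] {B Z : Type} [AddCommGroup B]

theorem tl_zero (x0 : Pos n m → B) (I : B → Dir m → B) (o : ℕ → B ⊕ Z) (w : Pos n m) : tl x0 I o 0 w = ⊤ := by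
  rw [tl, if_pos rfl]

theorem tl_succ (x0 : Pos n m → B) (I : B → Dir m → B) (o : ℕ → B ⊕ Z) (l : ℕ) (w : Pos n m) :
    tl x0 I o (l + 1) w = tm o (Sum.inl (val (ring n m) x0 I (n - (l + 1)) w)) := by
  rw [tl, if_neg (Nat.succ_ne_zero l)]

/-- In a chain the times of the lower levels are smaller. -/
theorem chain_lt {x0 : Pos n m → B} {I : B → Dir m → B} {o : ℕ → B ⊕ Z} {c : ℕ → Dir m} {l : ℕ}
    (h : Chain x0 I o c l) : ∀ j k, j < k → k ≤ l →
      tl x0 I o k (pos n c k) < tl x0 I o j (pos n c j) := by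
  intro j k
  induction k with
  | zero => intro hj; omega
  | succ k ih =>
    intro hj hk
    rcases Nat.lt_succ_iff_lt_or_eq.1 hj with h1 | h1
    · exact (h k (by omega)).trans (ih h1 (by omega))
    · rw [h1]
      exact h k (by omega)

/-- F4: the last time with an open path. -/
theorem exists_close (hn : 1 ≤ n) (x0 : Pos n m → B) (I : B → Dir m → B) (o : ℕ → B ⊕ Z) (L : ℕ)
    (hL : ∀ j, L ≤ j → ∃ y, o j = Sum.inr y) (h0 : ∃ w, InR x0 I o n w) :
    ∃ τ, (∀ w, ¬ InR x0 I (fun j => o (j + τ)) n w) ∧ ∃ c, Chain x0 I (fun j => o (j + τ)) c (n - 1) := by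
  classical
  have hex : ∃ τ, ∀ w, ¬ InR x0 I (fun j => o (j + τ)) n w := by
    refine ⟨L, ?_⟩
    rintro w ⟨c, hc, -⟩
    have h1 := hc 0 (by omega)
    rw [tl_zero, tl_succ, tm_eq_top] at h1
    · exact absurd h1 (lt_irrefl _)
    · intro j
      obtain ⟨y, hy⟩ := hL (j + L) (by omega)
      rw [hy]
      exact fun h => by simp at h
  have hspec := Nat.find_spec hex
  set τ := Nat.find hex with hτ
  rcases τ with _ | τ
  · exfalso
    obtain ⟨w, hw⟩ := h0
    exact hspec w hw
  · have hmin := Nat.find_min hex (m := τ) (by omega)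
    push Not at hmin
    obtain ⟨w, c, hc, -⟩ := hmin
    refine ⟨τ + 1, hspec, c, ?_⟩
    have hlev : ∀ l, 1 ≤ l → l < n →
        tl x0 I (fun j => o (j + (τ + 1))) l (pos n c l) + 1 = tl x0 I (fun j => o (j + τ)) l (pos n c l) := by
      intro l hl1 hln
      obtain ⟨l, rfl⟩ := Nat.exists_eq_add_of_le' hl1
      rw [tl_succ, tl_succ]
      refine tm_shift o τ fun h => ?_
      have h1 := chain_lt hc (l + 1) n hln le_rfl
      have h2 : tl x0 I (fun j => o (j + τ)) (l + 1) (pos n c (l + 1)) ≤ ((0 : ℕ) : ℕ∞) := by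
        rw [tl_succ]
        refine tm_le ?_
        rw [Nat.zero_add]
        exact h
      have h3 := lt_of_lt_of_le h1 h2
      exact absurd h3 (by simp)
    intro j hj
    rcases j with _ | j
    · have h1 := hc 0 (by omega)
      rw [tl_zero] at h1 ⊢
      rw [← hlev (0 + 1) (by omega) (by omega)] at h1
      exact lt_of_le_of_lt le_self_add h1
    · have h1 := hc (j + 1) (by omega)
      rw [← hlev (j + 1 + 1) (by omega) (by omega), ← hlev (j + 1) (by omega) (by omega)] at h1
      exact lt_of_add_lt_add_right h1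

/-- F5: if no node `(l, 0)` is complete before a letter of its neighbour below, and the node `0` of the level `1` is
complete, then a path is open. -/
theorem open_start (_hn : 1 ≤ n) (x0 : Pos n m → B) (I : B → Dir m → B) (hI : CF (ring n m) x0 n I) (o : ℕ → B ⊕ Z)
    (h1 : ∀ t, tl x0 I o 1 (0, t) < ⊤)
    (h2 : ∀ l, 1 ≤ l → l < n → ∀ t', ¬ ∀ t, tl x0 I o l (0, t) < tl x0 I o (l + 1) (0, t')) :
    ∃ w, InR x0 I o n w := by
  classical
  have hmax : ∀ l : ℕ, ∃ t : ZMod m, ∀ t', tl x0 I o l (0, t') ≤ tl x0 I o l (0, t) := by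
    intro l
    obtain ⟨t, ht⟩ := Finite.exists_max fun t : ZMod m => tl x0 I o l (0, t)
    exact ⟨t, ht⟩
  choose T hT using hmax
  set t : ℕ → ZMod m := fun l => if l = 0 then 0 else T l with ht
  set c : ℕ → Dir m := fun l => (false, t (l + 1) - t l) with hc
  have hpos : ∀ l, pos n c l = (0, t l) := by
    intro l
    induction l with
    | zero => simp [pos, ht]
    | succ l ih =>
      rw [pos, ih]
      simp [ring, hc]
  have hle : ∀ l, 1 ≤ l → ∀ t', tl x0 I o l (0, t') ≤ tl x0 I o l (0, t l) := by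
    intro l hl t'
    have : t l = T l := if_neg (by omega)
    rw [this]
    exact hT l t'
  have key : ∀ l, 1 ≤ l → l ≤ n → tl x0 I o l (0, t l) < ⊤ ∧
      (1 < l → tl x0 I o l (0, t l) < tl x0 I o (l - 1) (0, t (l - 1))) := by
    intro l
    induction l with
    | zero => intro h; omega
    | succ l ih =>
      intro _ hl
      rcases Nat.eq_zero_or_pos l with h0 | h0
      · subst h0
        exact ⟨h1 _, fun h => absurd h (by omega)⟩
      · obtain ⟨h3, -⟩ := ih h0 (by omega)
        have h4 := h2 l h0 (by omega) (t (l + 1))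
        push Not at h4
        obtain ⟨t', h5⟩ := h4
        have h6 := h5.trans (hle l h0 t')
        have h7 : tl x0 I o (l + 1) (0, t (l + 1)) ≠ tl x0 I o l (0, t l) := by
          intro he
          obtain ⟨a, ha⟩ := ENat.ne_top_iff_exists.1 h3.ne
          obtain ⟨l, rfl⟩ := Nat.exists_eq_add_of_le' h0
          rw [← ha, tl_succ] at he
          rw [tl_succ] at ha
          have h8 := tm_eq_nat he
          have h9 := tm_eq_nat ha.symm
          have h10 := Sum.inl_injective (h8.symm.trans h9)
          have h11 := (hI _ (by omega) _ (by omega) _ _ h10).1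
          omega
        have h8 := lt_of_le_of_ne h6 h7
        exact ⟨h8.trans h3, fun _ => h8⟩
  refine ⟨(0, t n), c, fun j hj => ?_, hpos n⟩
  rw [hpos, hpos]
  obtain ⟨h3, h4⟩ := key (j + 1) (by omega) (by omega)
  rcases Nat.eq_zero_or_pos j with h0 | h0
  · subst h0
    rw [tl_zero]
    exact h3
  · exact h4 (by omega)

end Pool.Agent.Helper1.NF
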